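import Pool.Agent.Run7.h523.KF.Iface

set_option autoImplicit false

/-!
# Project KF: pieces COM and CNT
-/

namespace Run7.h847.KF

open Run7.h523.KF

theorem sb_typ (j k : ℕ) (p : ℤ) (hjk : j + 2 ≤ k) :
    (sb k p = p ∧ sb j (sb k p) = sb j p ∧ |p| ≤ 2 * j + 1 ∧ |sb j p| ≤ 2 * j + 1) ∨
    (sb j p = p ∧ sb j (sb k p) = sb k p ∧
      ((2 * k - 1 ≤ p ∧ 2 * k - 1 ≤ sb k p) ∨ (p ≤ -(2 * k - 1) ∧ sb k p ≤ -(2 * k - 1)))) ∨
    (sb j p = p ∧ sb k p = p ∧ sb j (sb k p) = p) := by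
  by_cases h1 : p = 2 * j + 1
  · left
    have e1 : sb j p = 2 * j - 1 := by unfold sb; rw [if_pos h1]
    have e2 : sb k p = p := by
      unfold sb; split_ifs <;> omega
    refine ⟨e2, by rw [e2], ?_, ?_⟩
    · rw [h1, abs_le]; omega
    · rw [e1, abs_le]; omega
  by_cases h2 : p = -(2 * j + 1)
  · left
    have e1 : sb j p = -(2 * j - 1) := by unfold sb; rw [if_neg h1, if_pos h2]
    have e2 : sb k p = p := by
      unfold sb; split_ifs <;> omega
    refine ⟨e2, by rw [e2], ?_, ?_⟩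
    · rw [h2, abs_le]; omega
    · rw [e1, abs_le]; omega
  by_cases h3 : p = 2 * j - 1
  · left
    have e1 : sb j p = 2 * j + 1 := by unfold sb; rw [if_neg h1, if_neg h2, if_pos h3]
    have e2 : sb k p = p := by
      unfold sb; split_ifs <;> omega
    refine ⟨e2, by rw [e2], ?_, ?_⟩
    · rw [h3, abs_le]; omega
    · rw [e1, abs_le]; omega
  by_cases h4 : p = -(2 * j - 1)
  · left
    have e1 : sb j p = -(2 * j + 1) := by
      unfold sb; rw [if_neg h1, if_neg h2, if_neg h3, if_pos h4]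
    have e2 : sb k p = p := by
      unfold sb; split_ifs <;> omega
    refine ⟨e2, by rw [e2], ?_, ?_⟩
    · rw [h4, abs_le]; omega
    · rw [e1, abs_le]; omega
  right
  have e0 : sb j p = p := by
    unfold sb; rw [if_neg h1, if_neg h2, if_neg h3, if_neg h4]
  by_cases g1 : p = 2 * k + 1
  · left
    have e1 : sb k p = 2 * k - 1 := by unfold sb; rw [if_pos g1]
    refine ⟨e0, ?_, Or.inl ⟨by omega, by omega⟩⟩
    rw [e1]; unfold sb; split_ifs <;> omega
  by_cases g2 : p = -(2 * k + 1)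
  · left
    have e1 : sb k p = -(2 * k - 1) := by unfold sb; rw [if_neg g1, if_pos g2]
    refine ⟨e0, ?_, Or.inr ⟨by omega, by omega⟩⟩
    rw [e1]; unfold sb; split_ifs <;> omega
  by_cases g3 : p = 2 * k - 1
  · left
    have e1 : sb k p = 2 * k + 1 := by unfold sb; rw [if_neg g1, if_neg g2, if_pos g3]
    refine ⟨e0, ?_, Or.inl ⟨by omega, by omega⟩⟩
    rw [e1]; unfold sb; split_ifs <;> omega
  by_cases g4 : p = -(2 * k - 1)
  · left
    have e1 : sb k p = -(2 * k + 1) := by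
      unfold sb; rw [if_neg g1, if_neg g2, if_neg g3, if_pos g4]
    refine ⟨e0, ?_, Or.inr ⟨by omega, by omega⟩⟩
    rw [e1]; unfold sb; split_ifs <;> omega
  right
  have e1 : sb k p = p := by
    unfold sb; rw [if_neg g1, if_neg g2, if_neg g3, if_neg g4]
  exact ⟨e0, e1, by rw [e1, e0]⟩

theorem sb_le (j k : ℕ) (p q : ℤ) (hjk : j + 2 ≤ k) (h0 : p ≤ q) (h1 : sb j p ≤ sb j q)
    (h2 : sb k p ≤ sb k q) : sb j (sb k p) ≤ sb j (sb k q) := by
  rcases sb_typ j k p hjk with ⟨a1, a2, a3, a4⟩ | ⟨a1, a2, a3⟩ | ⟨a1, a2, a3⟩ <;>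
    rcases sb_typ j k q hjk with ⟨b1, b2, b3, b4⟩ | ⟨b1, b2, b3⟩ | ⟨b1, b2, b3⟩ <;>
    (try simp only [abs_le] at *) <;> omega

section
variable {P : Type} [Fintype P] [DecidableEq P]

theorem mem_Om {R : P × Bool → P × Bool → Prop} {M : ℕ} {x : P → ℤ} :
    x ∈ Om R M ↔ (∀ v, x v ∈ Si M) ∧ (∀ v w, |x v| = |x w| → v = w) ∧
      ∀ a b, R a b → sv x a ≤ sv x b := by
  classical
  unfold Om
  rw [Finset.mem_filter, Fintype.mem_piFinset]

theorem odd_of_Si {M : ℕ} {z : ℤ} (h : z ∈ Si M) : Odd z := by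
  classical
  unfold Si at h
  exact (Finset.mem_filter.1 h).2

theorem sv_sx (hneg : ∀ (j : ℕ) (z : ℤ), sb j (-z) = -sb j z) (j : ℕ) (x : P → ℤ)
    (a : P × Bool) : sv (sx j x) a = sb j (sv x a) := by
  unfold sv sx
  split_ifs
  · rfl
  · rw [hneg]

theorem t_COM : S_INV → S_COM := by
  classical
  intro hI P _ _ R M f j k hjk hk
  obtain ⟨hinv, hneg, hSi, habs, hcomm, -⟩ := hI
  have hjM : j < M := by omega
  set O := Om R M with hO
  have hss : ∀ (i : ℕ) (x : P → ℤ), sx i (sx i x) = x := fun i x => by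
    funext v; exact hinv i (x v)
  have hodd : ∀ x ∈ O, ∀ v, Odd (x v) := fun x hx v => odd_of_Si ((mem_Om.1 hx).1 v)
  have hst : ∀ x ∈ O, sx j (sx k x) = sx k (sx j x) := fun x hx => by
    funext v; exact hcomm j k (x v) hjk (hodd x hx v)
  -- the fourth corner
  have h4 : ∀ x ∈ O, sx j x ∈ O → sx k x ∈ O → sx j (sx k x) ∈ O := by
    intro x hx hs ht
    obtain ⟨x1, x2, x3⟩ := mem_Om.1 hx
    obtain ⟨s1, s2, s3⟩ := mem_Om.1 hs
    obtain ⟨t1, t2, t3⟩ := mem_Om.1 ht
    refine mem_Om.2 ⟨fun v => hSi M j _ hjM (t1 v), fun v w hvw => ?_, fun a b hab => ?_⟩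
    · exact t2 v w ((habs j _ _ (odd_of_Si (t1 v)) (odd_of_Si (t1 w))).1 hvw)
    · rw [sv_sx hneg, sv_sx hneg, sv_sx hneg, sv_sx hneg]
      have e1 := s3 a b hab
      have e2 := t3 a b hab
      rw [sv_sx hneg, sv_sx hneg] at e1 e2
      exact sb_le j k _ _ hjk (x3 a b hab) e1 e2
  set O4 := O.filter fun x => sx j x ∈ O ∧ sx k x ∈ O with hO4
  have hs4 : ∀ x ∈ O4, sx j x ∈ O4 := by
    intro x hx
    obtain ⟨h0, h1, h2⟩ := Finset.mem_filter.1 hx
    refine Finset.mem_filter.2 ⟨h1, ?_, ?_⟩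
    · rw [hss]; exact h0
    · rw [← hst x h0]; exact h4 x h0 h1 h2
  have ht4 : ∀ x ∈ O4, sx k x ∈ O4 := by
    intro x hx
    obtain ⟨h0, h1, h2⟩ := Finset.mem_filter.1 hx
    refine Finset.mem_filter.2 ⟨h2, h4 x h0 h1 h2, ?_⟩
    rw [hss]; exact h0
  set g : (P → ℤ) → ℝ := fun x => (f x - f (sx j x)) * (f x - f (sx k x)) with hg
  have hsum : ∑ x ∈ O, D R M f j x * D R M f k x = ∑ x ∈ O4, g x := by
    rw [hO4, Finset.sum_filter]
    refine Finset.sum_congr rfl fun x hx => ?_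
    unfold D
    by_cases h1 : sx j x ∈ O
    · by_cases h2 : sx k x ∈ O
      · rw [if_pos ⟨hx, h1⟩, if_pos ⟨hx, h2⟩, if_pos ⟨h1, h2⟩]
      · rw [if_neg (fun h : x ∈ Om R M ∧ sx k x ∈ Om R M => h2 h.2), mul_zero,
          if_neg (fun h : sx j x ∈ O ∧ sx k x ∈ O => h2 h.2)]
    · rw [if_neg (fun h : x ∈ Om R M ∧ sx j x ∈ Om R M => h1 h.2), zero_mul,
        if_neg (fun h : sx j x ∈ O ∧ sx k x ∈ O => h1 h.1)]
  have hre : ∀ (i : ℕ) (φ : (P → ℤ) → ℝ), (∀ x ∈ O4, sx i x ∈ O4) →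
      ∑ x ∈ O4, φ (sx i x) = ∑ x ∈ O4, φ x := by
    intro i φ hi
    exact Finset.sum_bij' (fun x _ => sx i x) (fun x _ => sx i x) (fun x hx => hi x hx)
      (fun x hx => hi x hx) (fun x _ => hss i x) (fun x _ => hss i x) (fun x _ => rfl)
  have e1 := hre j g hs4
  have e2 := hre k g ht4
  have e3 : ∑ x ∈ O4, g (sx j (sx k x)) = ∑ x ∈ O4, g x := by
    rw [hre k (fun x => g (sx j x)) ht4, e1]
  have hfour : 4 * ∑ x ∈ O4, g x =
      ∑ x ∈ O4, (f x - f (sx j x) - f (sx k x) + f (sx j (sx k x))) ^ 2 := by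
    have : 4 * ∑ x ∈ O4, g x = ∑ x ∈ O4, g x + ∑ x ∈ O4, g (sx j x) + ∑ x ∈ O4, g (sx k x) +
        ∑ x ∈ O4, g (sx j (sx k x)) := by rw [e1, e2, e3]; ring
    rw [this, ← Finset.sum_add_distrib, ← Finset.sum_add_distrib, ← Finset.sum_add_distrib]
    refine Finset.sum_congr rfl fun x hx => ?_
    obtain ⟨h0, h1, h2⟩ := Finset.mem_filter.1 hx
    have c1 : sx k (sx j x) = sx j (sx k x) := (hst x h0).symm
    have c2 : sx j (sx j (sx k x)) = sx k x := hss j _
    have c3 : sx k (sx j (sx k x)) = sx j x := by rw [hst x h0, hss]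
    show (f x - f (sx j x)) * (f x - f (sx k x)) +
      (f (sx j x) - f (sx j (sx j x))) * (f (sx j x) - f (sx k (sx j x))) +
      (f (sx k x) - f (sx j (sx k x))) * (f (sx k x) - f (sx k (sx k x))) +
      (f (sx j (sx k x)) - f (sx j (sx j (sx k x)))) *
        (f (sx j (sx k x)) - f (sx k (sx j (sx k x)))) = _
    rw [c1, c2, c3, hss, hss]
    ring
  rw [hsum]
  have hnn : 0 ≤ ∑ x ∈ O4, (f x - f (sx j x) - f (sx k x) + f (sx j (sx k x))) ^ 2 :=
    Finset.sum_nonneg fun x _ => sq_nonneg _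
  linarith

theorem card_Si (M : ℕ) : (Si M).card ≤ 4 * M := by
  classical
  unfold Si
  refine (Finset.card_filter_le _ _).trans ?_
  rw [Int.card_Ioo]
  omega

theorem card_bad (M : ℕ) (v w : P) (hvw : v ≠ w) :
    ((Fintype.piFinset fun _ : P => Si M).filter fun x => abs (|x v| - |x w|) ≤ 2).card ≤
      10 * (4 * M) ^ (Fintype.card P - 1) := by
  classical
  set S := (Fintype.piFinset fun _ : P => Si M).filter fun x => abs (|x v| - |x w|) ≤ 2 with hS
  set φ : (P → ℤ) → (P → ℤ) := fun x => Function.update x w 1 with hφ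
  have h1 : (S.image φ).card ≤ (4 * M) ^ (Fintype.card P - 1) := by
    have hsub : S.image φ ⊆ Fintype.piFinset fun u : P => if u = w then {1} else Si M := by
      intro y hy
      obtain ⟨x, hx, rfl⟩ := Finset.mem_image.1 hy
      rw [Fintype.mem_piFinset]
      intro u
      by_cases hu : u = w
      · subst hu
        simp [hφ]
      · rw [if_neg hu]
        show Function.update x w 1 u ∈ Si M
        rw [Function.update_of_ne hu]
        exact Fintype.mem_piFinset.1 (Finset.mem_filter.1 hx).1 u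
    refine (Finset.card_le_card hsub).trans ?_
    rw [Fintype.card_piFinset, ← Finset.mul_prod_erase _ _ (Finset.mem_univ w), if_pos rfl,
      Finset.card_singleton, one_mul]
    calc ∏ u ∈ Finset.univ.erase w, (if u = w then ({1} : Finset ℤ) else Si M).card
        = ∏ u ∈ (Finset.univ : Finset P).erase w, (Si M).card :=
          Finset.prod_congr rfl fun u hu => by rw [if_neg (Finset.ne_of_mem_erase hu)]
      _ = (Si M).card ^ (Fintype.card P - 1) := by
          rw [Finset.prod_const, Finset.card_erase_of_mem (Finset.mem_univ w),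
            Finset.card_univ]
      _ ≤ _ := Nat.pow_le_pow_left (card_Si M) _
  have h2 : S.card ≤ 10 * (S.image φ).card := by
    refine Finset.card_le_mul_card_image _ _ fun a _ => ?_
    set T : Finset ℤ := Finset.Icc (|a v| - 2) (|a v| + 2) ∪
      Finset.Icc (-|a v| - 2) (-|a v| + 2) with hT
    have hTc : T.card ≤ 10 := by
      refine (Finset.card_union_le _ _).trans ?_
      rw [Int.card_Icc, Int.card_Icc]
      omega
    have hsub : (S.filter fun x => φ x = a) ⊆ T.image fun z => Function.update a w z := by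
      intro x hx
      obtain ⟨hxS, hxa⟩ := Finset.mem_filter.1 hx
      have hav : a v = x v := by
        rw [← hxa]
        show Function.update x w 1 v = x v
        rw [Function.update_of_ne hvw]
      refine Finset.mem_image.2 ⟨x w, ?_, ?_⟩
      · have h3 := (Finset.mem_filter.1 hxS).2
        rw [hT, Finset.mem_union, Finset.mem_Icc, Finset.mem_Icc, hav]
        rw [abs_le] at h3
        rcases abs_cases (x w) with ⟨h4, _⟩ | ⟨h4, _⟩
        · left; omega
        · right; omega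
      · rw [← hxa]
        show Function.update (Function.update x w 1) w (x w) = x
        rw [Function.update_idem, Function.update_eq_self]
    exact (Finset.card_le_card hsub).trans (Finset.card_image_le.trans hTc)
  exact h2.trans (Nat.mul_le_mul_left _ h1)

end

theorem t_CNT : S_CNT := by
  classical
  intro P _ _ R
  refine ⟨(Fintype.card P : ℝ) ^ 2 * 10 * 4 ^ (Fintype.card P), by positivity, fun M => ?_⟩
  set B := (Om R M).filter fun x => ∃ v w, v ≠ w ∧ abs (|x v| - |x w|) ≤ 2 with hB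
  rcases B.eq_empty_or_nonempty with he | hne
  · rw [he]
    simp only [Finset.card_empty, Nat.cast_zero, zero_mul]
    positivity
  · obtain ⟨x0, hx0⟩ := hne
    obtain ⟨v0, -⟩ := (Finset.mem_filter.1 hx0).2
    have hcard : 0 < Fintype.card P := Fintype.card_pos_iff.2 ⟨v0⟩
    have hsub : B ⊆ (Finset.univ : Finset (P × P)).biUnion fun vw =>
        if vw.1 = vw.2 then ∅ else
          (Fintype.piFinset fun _ : P => Si M).filter
            fun x => abs (|x vw.1| - |x vw.2|) ≤ 2 := by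
      intro x hx
      obtain ⟨hxO, v, w, hvw, h⟩ := Finset.mem_filter.1 hx
      refine Finset.mem_biUnion.2 ⟨(v, w), Finset.mem_univ _, ?_⟩
      simp only
      rw [if_neg hvw]
      exact Finset.mem_filter.2 ⟨Fintype.mem_piFinset.2 (mem_Om.1 hxO).1, h⟩
    have h1 : B.card ≤ Fintype.card P ^ 2 * (10 * (4 * M) ^ (Fintype.card P - 1)) := by
      refine (Finset.card_le_card hsub).trans ?_
      refine (Finset.card_biUnion_le_card_mul _ _ (10 * (4 * M) ^ (Fintype.card P - 1))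
        fun vw _ => ?_).trans ?_
      · by_cases h : vw.1 = vw.2
        · rw [if_pos h]; simp
        · rw [if_neg h]
          exact card_bad M vw.1 vw.2 h
      · rw [Finset.card_univ, Fintype.card_prod, pow_two]
    obtain ⟨m, hm⟩ : ∃ m, Fintype.card P = m + 1 := ⟨Fintype.card P - 1, by omega⟩
    rw [hm] at h1 ⊢
    rw [Nat.add_sub_cancel] at h1
    have h2 : (B.card : ℝ) ≤ ((m + 1 : ℕ) : ℝ) ^ 2 * (10 * (4 * (M : ℝ)) ^ m) := by
      exact_mod_cast h1
    have hM : (0 : ℝ) ≤ M := Nat.cast_nonneg M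
    calc (B.card : ℝ) * M ≤ ((m + 1 : ℕ) : ℝ) ^ 2 * (10 * (4 * (M : ℝ)) ^ m) * M :=
          mul_le_mul_of_nonneg_right h2 hM
      _ = ((m + 1 : ℕ) : ℝ) ^ 2 * 10 * 4 ^ m * (M : ℝ) ^ (m + 1) := by
          rw [mul_pow, pow_succ]; ring
      _ ≤ ((m + 1 : ℕ) : ℝ) ^ 2 * 10 * 4 ^ (m + 1) * (M : ℝ) ^ (m + 1) := by
          refine mul_le_mul_of_nonneg_right ?_ (by positivity)
          refine mul_le_mul_of_nonneg_left ?_ (by positivity)
          exact pow_le_pow_right₀ (by norm_num) (Nat.le_succ m)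

end Run7.h847.KF
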